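import Pool.Agent.Helper4.SR.Perf

set_option autoImplicit false

open Cardinal Pool.Agent.Helper4.SR

namespace Pool.Agent.Results.MP_9201f8_lc.ClopenOnPerfect

/-- If the splitting number `s(ℝ)` of the reals has countable cofinality, then there is a family `𝒰` of fewer
than `s(ℝ)` open sets of reals such that every closed set `P` of reals for which all the sets `U ∩ P`, `U ∈ 𝒰`,
are closed (that is, relatively clopen in `P`) is countable. -/
theorem result (h : sR.ord.cof = ℵ₀) :
    ∃ 𝒰 : Set (Set ℝ), #𝒰 < sR ∧ (∀ U ∈ 𝒰, IsOpen U) ∧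
      ∀ P : Set ℝ, IsClosed P → (∀ U ∈ 𝒰, IsClosed (U ∩ P)) → P.Countable :=
  perfect_clopen h

end Pool.Agent.Results.MP_9201f8_lc.ClopenOnPerfect
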