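import Pool.Agent.Helper4.SR.Thin3

set_option autoImplicit false

open Cardinal Pool.Agent.Helper4.SR

namespace Pool.Agent.Results.MP_9201f8_lc.ThinCoverings

/-- If the splitting number `s(ℝ)` of the reals has countable cofinality, then for every `H : ℕ → ℕ` there is
`f : ℕ → ℕ` such that for every `f' ≥ f` the Cantor space is not the union of at most `s(ℝ)` sets `L` which
satisfy: for all `n` the points of `L` have at most `H n` different restrictions to the first `f' n` places. -/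
theorem result (h : sR.ord.cof = ℵ₀) (H : ℕ → ℕ) :
    ∃ f : ℕ → ℕ, ∀ f' : ℕ → ℕ, (∀ n, f n ≤ f' n) → ∀ ℒ : Set (Set (ℕ → Bool)), #ℒ ≤ sR →
      (∀ L ∈ ℒ, ∀ n, ((fun (x : ℕ → Bool) (i : Fin (f' n)) => x i) '' L).ncard ≤ H n) →
      ∃ x : ℕ → Bool, ∀ L ∈ ℒ, x ∉ L := by
  obtain ⟨f, hf⟩ := thin_main h H
  refine ⟨f, fun f' hff ℒ hℒ hth => hf ℒ hℒ fun L hL n => le_trans ?_ (hth L hL n)⟩
  have hsub : tr (f n) '' L =
      (fun (t : Fin (f' n) → Bool) (i : Fin (f n)) => t ⟨i, i.2.trans_le (hff n)⟩) ''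
        ((fun (x : ℕ → Bool) (i : Fin (f' n)) => x i) '' L) := by
    rw [Set.image_image]
    rfl
  rw [hsub]
  exact Set.ncard_image_le (Set.toFinite _)

end Pool.Agent.Results.MP_9201f8_lc.ThinCoverings
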